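import Pool.Agent.H58c.Spread

/-! The components of a graph all of whose components are finite. -/

namespace H58Wqo

universe u v w

/-- part of a minor model: only the vertices in `T` get branch sets, all inside `S` -/
def MinorFT {V : Type u} {W : Type v} (G : SimpleGraph V) (T : Set V) (G' : SimpleGraph W)
    (S : Set W) : Prop :=
  ∃ B : V → Set W, (∀ v ∈ T, B v ⊆ S) ∧ (∀ v ∈ T, (G'.induce (B v)).Connected) ∧
    (∀ v ∈ T, ∀ v' ∈ T, v ≠ v' → Disjoint (B v) (B v')) ∧
    ∀ v ∈ T, ∀ v' ∈ T, G.Adj v v' → ∃ x ∈ B v, ∃ y ∈ B v', G'.Adj x y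

theorem minorFT_of_minorIn {V : Type u} {W : Type v} {G : SimpleGraph V} {T : Set V}
    {G' : SimpleGraph W} {S : Set W} (h : MinorIn (G.induce T) G' S) : MinorFT G T G' S := by
  classical
  obtain ⟨B, h1, h2, h3, h4⟩ := h
  refine ⟨fun v => if hv : v ∈ T then B ⟨v, hv⟩ else ∅, ?_, ?_, ?_, ?_⟩
  · intro v hv
    simp only [dif_pos hv]
    exact h1 _
  · intro v hv
    have hd : (if hv : v ∈ T then B ⟨v, hv⟩ else ∅) = B ⟨v, hv⟩ := dif_pos hv
    change (G'.induce (if hv : v ∈ T then B ⟨v, hv⟩ else ∅)).Connected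
    rw [hd]
    exact h2 _
  · intro v hv v' hv' hne
    simp only [dif_pos hv, dif_pos hv']
    exact h3 _ _ (fun h => hne (congrArg Subtype.val h))
  · intro v hv v' hv' hadj
    simp only [dif_pos hv, dif_pos hv']
    exact h4 ⟨v, hv⟩ ⟨v', hv'⟩ hadj

/-- gluing minors of pieces -/
theorem glue {V : Type u} {W : Type v} {ι : Type w} {G : SimpleGraph V} {G' : SimpleGraph W}
    (P : V → ι) (hP : ∀ a b, G.Adj a b → P a = P b) (S : ι → Set W)
    (hS : ∀ i j, i ≠ j → Disjoint (S i) (S j))
    (h : ∀ i, MinorFT G {v | P v = i} G' (S i)) : IsMinor G G' := by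
  choose B h1 h2 h3 h4 using h
  refine ⟨fun v => B (P v) v, fun v => h2 (P v) v rfl, ?_, ?_⟩
  · intro v v' hne
    by_cases hp : P v = P v'
    · have := h3 (P v) v rfl v' hp.symm hne
      change Disjoint (B (P v) v) (B (P v') v')
      rw [← hp]
      exact this
    · exact (hS _ _ hp).mono (h1 (P v) v rfl) (h1 (P v') v' rfl)
  · intro v v' hadj
    have hp := hP v v' hadj
    have := h4 (P v) v rfl v' hp.symm hadj
    change ∃ x ∈ B (P v) v, ∃ y ∈ B (P v') v', G'.Adj x y
    rw [← hp]
    exact this

/-- every finite set of vertices induces a graph equivalent to a member of `FinGraph` -/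
theorem exists_rep {V : Type u} (G : SimpleGraph V) {T : Set V} (hT : T.Finite) :
    ∃ F : FinGraph, MinorIn F.2 G T ∧ IsMinor (G.induce T) F.2 := by
  obtain ⟨n, ⟨e⟩⟩ := (hT.to_subtype : Finite T).exists_equiv_fin
  refine ⟨⟨n, (G.induce T).comap e.symm⟩, ?_, ?_⟩
  · exact minorIn_of_hom (fun i => (e.symm i).1)
      (fun a b hab => e.symm.injective (Subtype.ext hab)) (fun i => (e.symm i).2)
      (fun a b hab => hab)
  · refine minorIn_univ.1 (minorIn_of_hom e e.injective (fun _ => Set.mem_univ _) ?_)
    intro a b hab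
    change (G.induce T).Adj (e.symm (e a)) (e.symm (e b))
    rw [e.symm_apply_apply, e.symm_apply_apply]
    exact hab

theorem countable_finGraph : Countable FinGraph := by
  infer_instance

/-- the number of components having `F` as a minor -/
noncomputable def numComp {V : Type u} (G : SimpleGraph V) (F : FinGraph) : Cardinal.{u} :=
  Cardinal.mk {c : G.ConnectedComponent // MinorIn F.2 G c.supp}

theorem numComp_anti {V : Type u} (G : SimpleGraph V) {F F' : FinGraph}
    (h : IsMinor F.2 F'.2) : numComp G F' ≤ numComp G F :=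
  Cardinal.mk_le_mk_of_subset (s := {c : G.ConnectedComponent | MinorIn F'.2 G c.supp})
    (t := {c : G.ConnectedComponent | MinorIn F.2 G c.supp}) (fun _ hc => MinorIn.trans h hc)

/-- the infinite part of `numComp` -/
noncomputable def infComp {V : Type u} (G : SimpleGraph V) (F : FinGraph) : Cardinal.{u} :=
  open Classical in if Cardinal.aleph0 ≤ numComp G F then numComp G F else 0

theorem infComp_anti {V : Type u} (G : SimpleGraph V) {F F' : FinGraph}
    (h : IsMinor F.2 F'.2) : infComp G F' ≤ infComp G F := by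
  unfold infComp
  by_cases h' : Cardinal.aleph0 ≤ numComp G F'
  · rw [if_pos h', if_pos (h'.trans (numComp_anti G h))]
    exact numComp_anti G h
  · rw [if_neg h']
    exact zero_le

end H58Wqo
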