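import Pool.Agent.H58c.Upward

/-! Disjoint unions of cones over the members of a class of finite graphs; the equivalences. -/

namespace H58Wqo

universe u v w

open Relation

/-- adjacency in the graph obtained from `H` by adding one vertex joined to all others -/
inductive ConeAdj {V : Type u} (H : SimpleGraph V) : Option V → Option V → Prop
  | apexL (v : V) : ConeAdj H none (some v)
  | apexR (v : V) : ConeAdj H (some v) none
  | old (a b : V) (h : H.Adj a b) : ConeAdj H (some a) (some b)

/-- vertices of the disjoint union of the cones over the members of `C` -/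
abbrev UV (C : Set FinGraph) : Type := Σ F : C, Option (Fin F.1.1)

/-- adjacency in the disjoint union of cones -/
inductive UAdj (C : Set FinGraph) : UV C → UV C → Prop
  | mk (F : C) (a b : Option (Fin F.1.1)) (h : ConeAdj F.1.2 a b) : UAdj C ⟨F, a⟩ ⟨F, b⟩

/-- the disjoint union of the cones over the members of `C` -/
def UG (C : Set FinGraph) : SimpleGraph (UV C) where
  Adj := UAdj C
  symm := ⟨by
    rintro _ _ ⟨F, a, b, h⟩
    refine UAdj.mk F b a ?_
    rcases h with v | v | ⟨a, b, h⟩
    · exact ConeAdj.apexR v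
    · exact ConeAdj.apexL v
    · exact ConeAdj.old b a h.symm⟩
  loopless := ⟨by
    intro x hx
    have gen : ∀ y, UAdj C x y → x ≠ y := by
      rintro _ ⟨F, a, b, h⟩ heq
      have h1 : a = b := eq_of_heq (Sigma.mk.inj heq).2
      subst h1
      rcases h with v | v | ⟨a, b, h⟩
      exact h.ne rfl
    exact gen x hx rfl⟩

theorem fst_eq_of_adj {C : Set FinGraph} {x y : UV C} (h : (UG C).Adj x y) : x.1 = y.1 := by
  have h' : UAdj C x y := h
  rcases h' with ⟨F, a, b, h⟩
  rfl

theorem fst_eq_of_path {C : Set FinGraph} {S : Set (UV C)} {x y : UV C}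
    (h : ReflTransGen (StepIn (UG C) S) x y) : x.1 = y.1 := by
  induction h with
  | refl => rfl
  | tail _ hs ih => exact ih.trans (fst_eq_of_adj hs.1)

theorem fst_eq_of_reach {C : Set FinGraph} {x y : UV C} (h : (UG C).Reachable x y) :
    x.1 = y.1 := by
  rw [SimpleGraph.reachable_iff_reflTransGen] at h
  induction h with
  | refl => rfl
  | tail _ hs ih => exact ih.trans (fst_eq_of_adj hs)

theorem path_lift {V : Type u} {W : Type v} {G : SimpleGraph V} {K : SimpleGraph W} (f : V → W)
    (hf : ∀ a b, G.Adj a b → K.Adj (f a) (f b)) {x y : V} (h : G.Reachable x y) :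
    K.Reachable (f x) (f y) := by
  rw [SimpleGraph.reachable_iff_reflTransGen] at h ⊢
  induction h with
  | refl => exact ReflTransGen.refl
  | tail _ hs ih => exact ih.tail (hf _ _ hs)

theorem adj_of_some {C : Set FinGraph} (F : C) (a b : Fin F.1.1)
    (h : (UG C).Adj ⟨F, some a⟩ ⟨F, some b⟩) : F.1.2.Adj a b := by
  have gen : ∀ x y : UV C, UAdj C x y → ∀ a b : Fin F.1.1, x = ⟨F, some a⟩ →
      y = ⟨F, some b⟩ → F.1.2.Adj a b := by
    rintro _ _ ⟨F', p, q, hpq⟩ a b hx hy
    obtain ⟨h1, h2⟩ := Sigma.mk.inj hx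
    subst h1
    have h3 : p = some a := eq_of_heq h2
    have h4 : q = some b := eq_of_heq (Sigma.mk.inj hy).2
    subst h3
    subst h4
    rcases hpq with v | v | ⟨a, b, h⟩
    exact h
  exact gen _ _ h a b rfl rfl

theorem cone_adj_none {C : Set FinGraph} (F : C) (a : Fin F.1.1) :
    (UG C).Adj ⟨F, none⟩ ⟨F, some a⟩ := UAdj.mk F none (some a) (ConeAdj.apexL a)

theorem cone_adj_some {C : Set FinGraph} (F : C) (a b : Fin F.1.1) (h : F.1.2.Adj a b) :
    (UG C).Adj ⟨F, some a⟩ ⟨F, some b⟩ := UAdj.mk F _ _ (ConeAdj.old a b h)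

theorem finiteComponents_UG (C : Set FinGraph) : FiniteComponents (UG C) := by
  intro c
  induction c using SimpleGraph.ConnectedComponent.ind with
  | h x =>
    have hfin : (Set.range (fun o : Option (Fin x.1.1.1) => (⟨x.1, o⟩ : UV C))).Finite :=
      Set.finite_range _
    refine hfin.subset ?_
    intro y hy
    rw [SimpleGraph.ConnectedComponent.mem_supp_iff, SimpleGraph.ConnectedComponent.eq] at hy
    have h1 : y.1 = x.1 := fst_eq_of_reach hy
    obtain ⟨F, o⟩ := y
    simp only at h1
    subst h1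
    exact ⟨o, rfl⟩

theorem subset_of_minor {C D : Set FinGraph} (hD : MinorClosed D)
    (h : IsMinor (UG C) (UG D)) : C ⊆ D := by
  classical
  intro F0 hF0
  obtain ⟨B, h2, h3, h4⟩ := h
  set F : C := ⟨F0, hF0⟩ with hF
  obtain ⟨⟨x0, hx0⟩, hp0⟩ := conn_iff.1 (h2 ⟨F, none⟩)
  have hnone : ∀ x ∈ B ⟨F, none⟩, x.1 = x0.1 := fun x hx => (fst_eq_of_path (hp0 x0 hx0 x hx)).symm
  have hsome : ∀ a, ∀ x ∈ B ⟨F, some a⟩, x.1 = x0.1 := by
    intro a x hx
    obtain ⟨p, hp, q, hq, hpq⟩ := h4 _ _ (cone_adj_none F a)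
    have h5 := fst_eq_of_path ((conn_iff.1 (h2 ⟨F, some a⟩)).2 q hq x hx)
    rw [← h5, ← fst_eq_of_adj hpq]
    exact hnone p hp
  set a' : UV D := ⟨x0.1, none⟩ with ha'
  set S : Set (UV D) := {x | ∃ w : Fin x0.1.1.1, x = ⟨x0.1, some w⟩} with hS
  have hmemS : ∀ x : UV D, x.1 = x0.1 → x ≠ a' → x ∈ S := by
    rintro ⟨F', o⟩ hx hne
    simp only at hx
    subst hx
    match o with
    | none => exact absurd rfl hne
    | some w => exact ⟨w, rfl⟩
  have hdis : ∀ v, Disjoint (B ⟨F, none⟩) (B ⟨F, some v⟩) := by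
    intro v
    refine h3 _ _ ?_
    intro heq
    have h6 : (none : Option (Fin F.1.1)) = some v := eq_of_heq (Sigma.mk.inj heq).2
    exact absurd h6 (by simp)
  have hdis2 : ∀ v v', v ≠ v' → Disjoint (B ⟨F, some v⟩) (B ⟨F, some v'⟩) := by
    intro v v' hne
    refine h3 _ _ ?_
    intro heq
    have h6 : (some v : Option (Fin F.1.1)) = some v' := eq_of_heq (Sigma.mk.inj heq).2
    exact hne (Option.some.inj h6)
  have hmin : MinorIn F0.2 (UG D) S := by
    refine ⟨fun v => if a' ∈ B ⟨F, some v⟩ then B ⟨F, none⟩ else B ⟨F, some v⟩, ?_, ?_, ?_, ?_⟩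
    · intro v
      by_cases hv : a' ∈ B ⟨F, some v⟩
      · simp only [if_pos hv]
        intro x hx
        refine hmemS x (hnone x hx) ?_
        rintro rfl
        exact Set.disjoint_left.1 (hdis v) hx hv
      · simp only [if_neg hv]
        intro x hx
        refine hmemS x (hsome v x hx) ?_
        rintro rfl
        exact hv hx
    · intro v
      by_cases hv : a' ∈ B ⟨F, some v⟩
      · have hd : (if a' ∈ B ⟨F, some v⟩ then B ⟨F, none⟩ else B ⟨F, some v⟩) =
            B ⟨F, none⟩ := if_pos hv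
        change ((UG D).induce (if a' ∈ B ⟨F, some v⟩ then B ⟨F, none⟩
          else B ⟨F, some v⟩)).Connected
        rw [hd]
        exact h2 _
      · have hd : (if a' ∈ B ⟨F, some v⟩ then B ⟨F, none⟩ else B ⟨F, some v⟩) =
            B ⟨F, some v⟩ := if_neg hv
        change ((UG D).induce (if a' ∈ B ⟨F, some v⟩ then B ⟨F, none⟩
          else B ⟨F, some v⟩)).Connected
        rw [hd]
        exact h2 _
    · intro v v' hne
      by_cases hv : a' ∈ B ⟨F, some v⟩
      · have hv' : a' ∉ B ⟨F, some v'⟩ := fun h => Set.disjoint_left.1 (hdis2 v v' hne) hv h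
        simp only [if_pos hv, if_neg hv']
        exact hdis v'
      · by_cases hv' : a' ∈ B ⟨F, some v'⟩
        · simp only [if_neg hv, if_pos hv']
          exact (hdis v).symm
        · simp only [if_neg hv, if_neg hv']
          exact hdis2 v v' hne
    · intro v v' hadj
      have hne : v ≠ v' := hadj.ne
      by_cases hv : a' ∈ B ⟨F, some v⟩
      · have hv' : a' ∉ B ⟨F, some v'⟩ := fun h => Set.disjoint_left.1 (hdis2 v v' hne) hv h
        simp only [if_pos hv, if_neg hv']
        exact h4 _ _ (cone_adj_none F v')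
      · by_cases hv' : a' ∈ B ⟨F, some v'⟩
        · simp only [if_neg hv, if_pos hv']
          exact h4 _ _ (cone_adj_none F v).symm
        · simp only [if_neg hv, if_neg hv']
          exact h4 _ _ (cone_adj_some F v v' hadj)
  have hmin2 : IsMinor F0.2 x0.1.1.2 := by
    refine hmin.comap (fun w : Fin x0.1.1.1 => (⟨x0.1, some w⟩ : UV D)) ?_ ?_ ?_
    · intro a b hab
      have h6 : (some a : Option (Fin x0.1.1.1)) = some b := eq_of_heq (Sigma.mk.inj hab).2
      exact Option.some.inj h6
    · rintro x ⟨w, rfl⟩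
      exact ⟨w, rfl⟩
    · intro a b hab
      exact adj_of_some x0.1 a b hab
  exact hD x0.1.1 x0.1.2 F0 hmin2

theorem classesWqo_of_countableWqo (h : CountableWqo) : ClassesWqo := by
  intro C hC
  have hc := countable_finGraph
  obtain ⟨i, j, hij, hmin⟩ := h (fun n => UV (C n)) (fun n => UG (C n))
    (fun n => inferInstance) (fun n => finiteComponents_UG (C n))
  exact ⟨i, j, hij, subset_of_minor (hC j) hmin⟩

theorem countableWqo_of_allWqo (h : AllWqo.{u}) : CountableWqo := by
  intro V G _ hG
  obtain ⟨i, j, hij, hmin⟩ := h (fun n => ULift.{u} (V n))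
    (fun n => (G n).comap ULift.down) (by
      intro n c
      induction c using SimpleGraph.ConnectedComponent.ind with
      | h x =>
        have hfin := (hG n ((G n).connectedComponentMk x.down)).preimage
          (f := (ULift.down : ULift.{u} (V n) → V n)) (ULift.down_injective.injOn)
        refine hfin.subset ?_
        intro y hy
        rw [SimpleGraph.ConnectedComponent.mem_supp_iff, SimpleGraph.ConnectedComponent.eq] at hy
        change (G n).connectedComponentMk y.down = (G n).connectedComponentMk x.down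
        rw [SimpleGraph.ConnectedComponent.eq]
        exact path_lift ULift.down (fun a b hab => hab) hy)
  refine ⟨i, j, hij, ?_⟩
  have h1 : IsMinor (G i) ((G i).comap (ULift.down : ULift.{u} (V i) → V i)) :=
    minorIn_univ.1 (minorIn_of_hom ULift.up (fun a b hab => congrArg ULift.down hab)
      (fun _ => Set.mem_univ _) (fun a b hab => hab))
  have h2 := IsMinor.trans h1 hmin
  exact (minorIn_univ.2 h2).comap (fun x : V j => ULift.up x)
    (fun a b hab => congrArg ULift.down hab) (fun x _ => ⟨x.down, rfl⟩) (fun a b hab => hab)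

theorem classesWqo_of_rado (h : NoBadRadoArray) : ClassesWqo := by
  classical
  intro C hC
  by_contra hcon
  push Not at hcon
  have hex : ∀ i j : ℕ, ∃ F : FinGraph, i < j → F ∈ C i ∧ F ∉ C j := by
    intro i j
    by_cases hij : i < j
    · obtain ⟨F, hF⟩ := Set.not_subset.1 (hcon i j hij)
      exact ⟨F, fun _ => hF⟩
    · exact ⟨⟨0, ⊥⟩, fun h => absurd h hij⟩
  choose F hF using hex
  obtain ⟨i, j, k, hij, hjk, hmin⟩ := h F
  exact (hF i j hij).2 (hC j (F j k) (hF j k hjk).1 (F i j) hmin)

theorem rado_of_classesWqo (h : ClassesWqo) : NoBadRadoArray := by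
  intro F
  obtain ⟨i, j, hij, hsub⟩ := h (fun n => {K | ∃ m, n < m ∧ IsMinor K.2 (F n m).2})
    (fun n K hK K' hK' => by
      obtain ⟨m, hm, hKm⟩ := hK
      exact ⟨m, hm, hK'.trans hKm⟩)
  obtain ⟨k, hk, hmin⟩ := hsub ⟨j, hij, IsMinor.refl _⟩
  exact ⟨i, j, k, hij, hk, hmin⟩

end H58Wqo
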