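import Pool.Agent.H58c.MinorDefs

/-! Basic facts on connected sets and minors. -/

namespace H58Wqo

universe u v w

open Relation

/-- the step relation inside a set -/
def StepIn {W : Type v} (G : SimpleGraph W) (S : Set W) (a b : W) : Prop := G.Adj a b ∧ b ∈ S

theorem reach_of_path {W : Type v} {G : SimpleGraph W} {S : Set W} {x y : W} (hx : x ∈ S)
    (h : ReflTransGen (StepIn G S) x y) :
    ∃ hy : y ∈ S, (G.induce S).Reachable ⟨x, hx⟩ ⟨y, hy⟩ := by
  induction h with
  | refl => exact ⟨hx, SimpleGraph.Reachable.refl _⟩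
  | tail _ hstep ih =>
    obtain ⟨hb, hreach⟩ := ih
    refine ⟨hstep.2, hreach.trans ?_⟩
    apply SimpleGraph.Adj.reachable
    exact hstep.1

theorem path_of_reach {W : Type v} {G : SimpleGraph W} {S : Set W} {x y : S}
    (h : (G.induce S).Reachable x y) : ReflTransGen (StepIn G S) x.1 y.1 := by
  rw [SimpleGraph.reachable_iff_reflTransGen] at h
  induction h with
  | refl => exact ReflTransGen.refl
  | @tail b c _ hstep ih => exact ih.tail ⟨hstep, c.2⟩

theorem conn_iff {W : Type v} {G : SimpleGraph W} {S : Set W} :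
    (G.induce S).Connected ↔
      S.Nonempty ∧ ∀ x ∈ S, ∀ y ∈ S, ReflTransGen (StepIn G S) x y := by
  constructor
  · intro h
    obtain ⟨x⟩ := h.nonempty
    exact ⟨⟨x.1, x.2⟩, fun a ha b hb => path_of_reach (h.preconnected ⟨a, ha⟩ ⟨b, hb⟩)⟩
  · rintro ⟨⟨x, hx⟩, h⟩
    have : Nonempty S := ⟨⟨x, hx⟩⟩
    refine ⟨fun a b => ?_⟩
    obtain ⟨_, hr⟩ := reach_of_path a.2 (h a.1 a.2 b.1 b.2)
    exact hr

/-- it is enough to reach every point from one base point -/
theorem conn_of_base {W : Type v} {G : SimpleGraph W} {S : Set W} (x : W) (hx : x ∈ S)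
    (h : ∀ y ∈ S, ReflTransGen (StepIn G S) x y) : (G.induce S).Connected := by
  have : Nonempty S := ⟨⟨x, hx⟩⟩
  refine ⟨fun a b => ?_⟩
  obtain ⟨_, hra⟩ := reach_of_path hx (h a.1 a.2)
  obtain ⟨_, hrb⟩ := reach_of_path hx (h b.1 b.2)
  exact hra.symm.trans hrb

theorem path_mono {W : Type v} {G : SimpleGraph W} {S T : Set W} (hST : S ⊆ T) {x y : W}
    (h : ReflTransGen (StepIn G S) x y) : ReflTransGen (StepIn G T) x y := by
  induction h with
  | refl => exact ReflTransGen.refl
  | tail _ hab ih => exact ih.tail ⟨hab.1, hST hab.2⟩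

/-- minor with all branch sets inside a set `S` -/
def MinorIn {V : Type u} {W : Type v} (H : SimpleGraph V) (G : SimpleGraph W) (S : Set W) :
    Prop :=
  ∃ B : V → Set W, (∀ h, B h ⊆ S) ∧ (∀ h, (G.induce (B h)).Connected) ∧
    (∀ h h', h ≠ h' → Disjoint (B h) (B h')) ∧
    ∀ h h', H.Adj h h' → ∃ x ∈ B h, ∃ y ∈ B h', G.Adj x y

theorem minorIn_univ {V : Type u} {W : Type v} {H : SimpleGraph V} {G : SimpleGraph W} :
    MinorIn H G Set.univ ↔ IsMinor H G := by
  constructor
  · rintro ⟨B, _, h2, h3, h4⟩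
    exact ⟨B, h2, h3, h4⟩
  · rintro ⟨B, h2, h3, h4⟩
    exact ⟨B, fun _ => Set.subset_univ _, h2, h3, h4⟩

theorem MinorIn.mono {V : Type u} {W : Type v} {H : SimpleGraph V} {G : SimpleGraph W}
    {S T : Set W} (h : MinorIn H G S) (hST : S ⊆ T) : MinorIn H G T := by
  obtain ⟨B, h1, h2, h3, h4⟩ := h
  exact ⟨B, fun h => (h1 h).trans hST, h2, h3, h4⟩

theorem MinorIn.isMinor {V : Type u} {W : Type v} {H : SimpleGraph V} {G : SimpleGraph W}
    {S : Set W} (h : MinorIn H G S) : IsMinor H G :=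
  minorIn_univ.1 (h.mono (Set.subset_univ _))

/-- union of connected branch sets along a connected set of branch indices -/
theorem conn_biUnion {V : Type u} {W : Type v} {H : SimpleGraph V} {G : SimpleGraph W}
    (B : V → Set W) (hc : ∀ h, (G.induce (B h)).Connected)
    (ha : ∀ h h', H.Adj h h' → ∃ x ∈ B h, ∃ y ∈ B h', G.Adj x y)
    {T : Set V} (hT : (H.induce T).Connected) :
    (G.induce (⋃ t ∈ T, B t)).Connected := by
  obtain ⟨⟨t0, ht0⟩, hpath⟩ := conn_iff.1 hT
  obtain ⟨⟨x0, hx0⟩, _⟩ := conn_iff.1 (hc t0)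
  have hsub : ∀ t ∈ T, B t ⊆ ⋃ t ∈ T, B t := fun t ht => Set.subset_biUnion_of_mem ht
  refine conn_of_base x0 (hsub t0 ht0 hx0) ?_
  intro y hy
  rw [Set.mem_iUnion₂] at hy
  obtain ⟨t, ht, hyt⟩ := hy
  have key : ∀ t, ReflTransGen (StepIn H T) t0 t → ∀ y ∈ B t,
      ReflTransGen (StepIn G (⋃ t ∈ T, B t)) x0 y := by
    intro t hp
    induction hp with
    | refl =>
      intro y hy
      exact path_mono (hsub t0 ht0) ((conn_iff.1 (hc t0)).2 x0 hx0 y hy)
    | @tail b c hb hstep ih =>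
      intro y hy
      obtain ⟨p, hp, q, hq, hpq⟩ := ha b c hstep.1
      have h1 := ih p hp
      have h2 : StepIn G (⋃ t ∈ T, B t) p q := ⟨hpq, hsub c hstep.2 hq⟩
      exact (h1.tail h2).trans (path_mono (hsub c hstep.2) ((conn_iff.1 (hc c)).2 q hq y hy))
  exact key t (hpath t0 ht0 t ht) y hyt

theorem MinorIn.trans {U : Type w} {V : Type u} {W : Type v} {K : SimpleGraph U}
    {H : SimpleGraph V} {G : SimpleGraph W} {S : Set W} (h1 : IsMinor K H) (h2 : MinorIn H G S) :
    MinorIn K G S := by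
  obtain ⟨A, a2, a3, a4⟩ := h1
  obtain ⟨B, b1, b2, b3, b4⟩ := h2
  refine ⟨fun k => ⋃ t ∈ A k, B t, fun k => Set.iUnion₂_subset fun t _ => b1 t,
    fun k => conn_biUnion B b2 b4 (a2 k), ?_, ?_⟩
  · intro k k' hk
    rw [Set.disjoint_left]
    intro x hx hx'
    rw [Set.mem_iUnion₂] at hx hx'
    obtain ⟨t, ht, hxt⟩ := hx
    obtain ⟨t', ht', hxt'⟩ := hx'
    by_cases htt : t = t'
    · subst htt
      exact Set.disjoint_left.1 (a3 k k' hk) ht ht'
    · exact Set.disjoint_left.1 (b3 t t' htt) hxt hxt'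
  · intro k k' hkk
    obtain ⟨t, ht, t', ht', htt⟩ := a4 k k' hkk
    obtain ⟨x, hx, y, hy, hxy⟩ := b4 t t' htt
    exact ⟨x, Set.mem_biUnion ht hx, y, Set.mem_biUnion ht' hy, hxy⟩

theorem IsMinor.trans {U : Type w} {V : Type u} {W : Type v} {K : SimpleGraph U}
    {H : SimpleGraph V} {G : SimpleGraph W} (h1 : IsMinor K H) (h2 : IsMinor H G) :
    IsMinor K G :=
  minorIn_univ.1 (MinorIn.trans h1 (minorIn_univ.2 h2))

theorem conn_singleton {W : Type v} (G : SimpleGraph W) (x : W) :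
    (G.induce ({x} : Set W)).Connected := by
  refine conn_of_base x rfl ?_
  rintro y rfl
  exact ReflTransGen.refl

/-- an injective homomorphism gives a minor inside any set containing its range -/
theorem minorIn_of_hom {V : Type u} {W : Type v} {H : SimpleGraph V} {G : SimpleGraph W}
    {S : Set W} (e : V → W) (he : Function.Injective e) (hS : ∀ v, e v ∈ S)
    (hadj : ∀ a b, H.Adj a b → G.Adj (e a) (e b)) : MinorIn H G S := by
  refine ⟨fun v => {e v}, ?_, fun v => conn_singleton G _, ?_, ?_⟩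
  · intro v x hx
    rw [Set.mem_singleton_iff] at hx
    subst hx
    exact hS v
  · intro a b hab
    rw [Set.disjoint_singleton]
    exact fun h => hab (he h)
  · intro a b hab
    exact ⟨e a, rfl, e b, rfl, hadj a b hab⟩

theorem IsMinor.refl {V : Type u} (H : SimpleGraph V) : IsMinor H H :=
  minorIn_univ.1 (minorIn_of_hom id Function.injective_id (fun _ => Set.mem_univ _)
    fun _ _ h => h)

/-- pull back a minor along an injective map under which adjacency is reflected -/
theorem MinorIn.comap {V : Type u} {W : Type v} {U : Type w} {H : SimpleGraph V}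
    {G : SimpleGraph W} {K : SimpleGraph U} {S : Set W} (e : U → W)
    (hinj : Function.Injective e) (hS : ∀ x ∈ S, ∃ a, e a = x)
    (hadj : ∀ a b, G.Adj (e a) (e b) → K.Adj a b)
    (h : MinorIn H G S) : IsMinor H K := by
  obtain ⟨B, b1, b2, b3, b4⟩ := h
  refine ⟨fun v => e ⁻¹' (B v), ?_, ?_, ?_⟩
  · intro v
    obtain ⟨⟨x, hx⟩, hp⟩ := conn_iff.1 (b2 v)
    obtain ⟨a, rfl⟩ := hS x (b1 v hx)
    refine conn_of_base a hx ?_
    intro y hy
    have key : ∀ z, ReflTransGen (StepIn G (B v)) (e a) z → ∀ b, e b = z →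
        ReflTransGen (StepIn K (e ⁻¹' (B v))) a b := by
      intro z hz
      induction hz with
      | refl =>
        intro b hb
        rw [hinj hb]
      | @tail p q hp hstep ih =>
        intro b hb
        have hpB : p ∈ S := by
          rcases ReflTransGen.cases_tail hp with h | ⟨r, _, hr⟩
          · rw [h]; exact b1 v hx
          · exact b1 v hr.2
        obtain ⟨c, hc⟩ := hS p hpB
        refine (ih c hc).tail ⟨hadj _ _ ?_, ?_⟩
        · rw [hc, hb]; exact hstep.1
        · change e b ∈ B v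
          rw [hb]; exact hstep.2
    exact key (e y) (hp (e a) hx (e y) hy) y rfl
  · intro v v' hv
    exact Disjoint.preimage e (b3 v v' hv)
  · intro v v' hv
    obtain ⟨x, hx, y, hy, hxy⟩ := b4 v v' hv
    obtain ⟨a, rfl⟩ := hS x (b1 v hx)
    obtain ⟨b, rfl⟩ := hS y (b1 v' hy)
    exact ⟨a, hx, b, hy, hadj a b hxy⟩

end H58Wqo
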