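import Mathlib

/-! Minors of (possibly infinite) graphs, graphs with finite components, and the four
statements about them that `MP_d65884_co` compares. -/

namespace H58Wqo

universe u v w

/-- `H` is a minor of `G`: there are nonempty pairwise disjoint vertex sets `B h` of `G`, each
inducing a connected subgraph, such that adjacent vertices of `H` have branch sets joined by an
edge of `G`. -/
def IsMinor {V : Type u} {W : Type v} (H : SimpleGraph V) (G : SimpleGraph W) : Prop :=
  ∃ B : V → Set W, (∀ h, (G.induce (B h)).Connected) ∧
    (∀ h h', h ≠ h' → Disjoint (B h) (B h')) ∧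
    ∀ h h', H.Adj h h' → ∃ x ∈ B h, ∃ y ∈ B h', G.Adj x y

/-- All connected components of `G` are finite. -/
def FiniteComponents {V : Type u} (G : SimpleGraph V) : Prop :=
  ∀ c : G.ConnectedComponent, c.supp.Finite

/-- The graphs (with vertex set in the universe `u`, of any cardinality) all of whose
components are finite are well-quasi-ordered under minors. -/
def AllWqo : Prop :=
  ∀ (V : ℕ → Type u) (G : ∀ n, SimpleGraph (V n)), (∀ n, FiniteComponents (G n)) →
    ∃ i j, i < j ∧ IsMinor (G i) (G j)

/-- The countable graphs all of whose components are finite are well-quasi-ordered under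
minors. -/
def CountableWqo : Prop :=
  ∀ (V : ℕ → Type) (G : ∀ n, SimpleGraph (V n)), (∀ n, Countable (V n)) →
    (∀ n, FiniteComponents (G n)) → ∃ i j, i < j ∧ IsMinor (G i) (G j)

/-- Finite graphs (up to isomorphism). -/
abbrev FinGraph : Type := Σ n : ℕ, SimpleGraph (Fin n)

/-- There is no bad Rado array of finite graphs: whenever finite graphs `F i j` are given for
`i < j`, then `F i j` is a minor of `F j k` for some `i < j < k`. -/
def NoBadRadoArray : Prop :=
  ∀ F : ℕ → ℕ → FinGraph, ∃ i j k, i < j ∧ j < k ∧ IsMinor (F i j).2 (F j k).2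

/-- A class of finite graphs that is closed under taking minors. -/
def MinorClosed (C : Set FinGraph) : Prop :=
  ∀ F ∈ C, ∀ F' : FinGraph, IsMinor F'.2 F.2 → F' ∈ C

/-- The minor-closed classes of finite graphs are well-quasi-ordered by inclusion. -/
def ClassesWqo : Prop :=
  ∀ C : ℕ → Set FinGraph, (∀ n, MinorClosed (C n)) → ∃ i j, i < j ∧ C i ⊆ C j

end H58Wqo
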