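import Pool.Agent.H58c.MinorBasic

/-! Order-theoretic lemmas: an ultrafilter form of Ramsey's argument, antitone functions on a
quasi-order whose down-sets are well-quasi-ordered, and greedy choice of distinct
representatives. -/

namespace H58Wqo

universe u v w

open Filter

/-- every sequence has a good pair -/
def SeqGood {X : Type u} (r : X → X → Prop) : Prop :=
  ∀ x : ℕ → X, ∃ i j, i < j ∧ r (x i) (x j)

/-- a nonprincipal ultrafilter on `ℕ` -/
noncomputable def Uf : Ultrafilter ℕ := Filter.hyperfilter ℕ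

theorem ev_gt (n : ℕ) : ∀ᶠ k in (Uf : Filter ℕ), n < k := by
  have h : (Uf : Filter ℕ) ≤ Filter.cofinite := Filter.hyperfilter_le_cofinite
  rw [Nat.cofinite_eq_atTop] at h
  exact h (Filter.eventually_gt_atTop n)

theorem seqGood_eventually {X : Type u} {r : X → X → Prop} (h : SeqGood r) (x : ℕ → X) :
    ∀ᶠ i in (Uf : Filter ℕ), ∀ᶠ j in (Uf : Filter ℕ), r (x i) (x j) := by
  by_contra hcon
  rw [← Ultrafilter.eventually_not] at hcon
  have hne : (Uf : Filter ℕ).NeBot := Uf.neBot
  have hcon' : ∀ᶠ i in (Uf : Filter ℕ), ∀ᶠ j in (Uf : Filter ℕ), ¬ r (x i) (x j) := by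
    filter_upwards [hcon] with i hi
    rwa [Ultrafilter.eventually_not]
  obtain ⟨f, _, hf⟩ := exists_seq_of_forall_finset_exists
    (fun i : ℕ => ∀ᶠ j in (Uf : Filter ℕ), ¬ r (x i) (x j))
    (fun i j : ℕ => ¬ r (x i) (x j)) (by
      intro s hs
      have h1 : ∀ᶠ j in (Uf : Filter ℕ), ∀ i ∈ s, ¬ r (x i) (x j) := by
        rw [Filter.eventually_all_finset]
        exact hs
      obtain ⟨y, hy1, hy2⟩ := (hcon'.and h1).exists
      exact ⟨y, hy1, hy2⟩)
  obtain ⟨i, j, hij, hr⟩ := h (fun n => x (f n))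
  exact hf i j hij hr

/-- closed downwards -/
def DownClosed {Q : Type u} (le : Q → Q → Prop) (C : Set Q) : Prop :=
  ∀ a ∈ C, ∀ b, le b a → b ∈ C

/-- if the down-sets of a quasi-order are well-quasi-ordered by inclusion then so is the
quasi-order itself -/
theorem seqGood_of_downsets {Q : Type u} {le : Q → Q → Prop} (hrefl : ∀ a, le a a)
    (htrans : ∀ a b c, le a b → le b c → le a c)
    (hcl : ∀ C : ℕ → Set Q, (∀ n, DownClosed le (C n)) → ∃ i j, i < j ∧ C i ⊆ C j) :
    SeqGood le := by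
  intro x
  obtain ⟨i, j, hij, hsub⟩ := hcl (fun n => {a | le a (x n)})
    (fun n a ha b hb => htrans _ _ _ hb ha)
  exact ⟨i, j, hij, hsub (hrefl (x i))⟩

/-- antitone functions into a well-ordered set are well-quasi-ordered pointwise as soon as the
down-sets are well-quasi-ordered by inclusion -/
theorem antitone_good {Q : Type u} {le : Q → Q → Prop} (hrefl : ∀ a, le a a)
    (htrans : ∀ a b c, le a b → le b c → le a c)
    (hcl : ∀ C : ℕ → Set Q, (∀ n, DownClosed le (C n)) → ∃ i j, i < j ∧ C i ⊆ C j)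
    {W : Type v} [LinearOrder W] [WellFoundedLT W] (f : ℕ → Q → W)
    (hf : ∀ n a b, le a b → f n b ≤ f n a) : ∃ i j, i < j ∧ ∀ q, f i q ≤ f j q := by
  classical
  by_contra hcon
  push Not at hcon
  have hne : (Uf : Filter ℕ).NeBot := Uf.neBot
  have hch : ∀ i j : ℕ, ∃ q : Q, i < j → f j q < f i q := by
    intro i j
    by_cases hij : i < j
    · obtain ⟨q, hq⟩ := hcon i j hij
      exact ⟨q, fun _ => hq⟩
    · obtain ⟨q, _⟩ := hcon 0 1 one_pos
      exact ⟨q, fun h => absurd h hij⟩
  choose q hq using hch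
  let C : ℕ → {S : Set Q // DownClosed le S} := fun i =>
    ⟨{a | ∀ᶠ k in (Uf : Filter ℕ), le a (q i k)}, by
      intro a ha b hb
      have ha' : ∀ᶠ k in (Uf : Filter ℕ), le a (q i k) := ha
      change ∀ᶠ k in (Uf : Filter ℕ), le b (q i k)
      filter_upwards [ha'] with k hk
      exact htrans _ _ _ hb hk⟩
  have hsets : SeqGood (fun S T : {S : Set Q // DownClosed le S} => S.1 ⊆ T.1) := by
    intro x
    exact hcl (fun n => (x n).1) (fun n => (x n).2)
  have h1 := seqGood_eventually hsets C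
  have h2 : ∀ i : ℕ, ∀ᶠ j in (Uf : Filter ℕ), q i j ∈ (C i).1 := fun i =>
    seqGood_eventually (seqGood_of_downsets hrefl htrans hcl) (q i)
  have h3 : ∀ᶠ i in (Uf : Filter ℕ), ∀ᶠ j in (Uf : Filter ℕ),
      ∀ᶠ k in (Uf : Filter ℕ), le (q i j) (q j k) := by
    filter_upwards [h1] with i hi
    filter_upwards [hi, h2 i] with j hj hj2
    exact hj hj2
  have key : ∀ w : W, ∀ i j : ℕ, i < j → (∀ᶠ k in (Uf : Filter ℕ), le (q i j) (q j k)) →
      (∀ᶠ k in (Uf : Filter ℕ), ∀ᶠ l in (Uf : Filter ℕ), le (q j k) (q k l)) →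
      f i (q i j) = w → False := by
    intro w
    induction w using WellFoundedLT.induction with
    | ind w ih =>
      intro i j hij hgood hB hw
      obtain ⟨k, ⟨⟨hk1, hk2⟩, hk3⟩, hk4⟩ := (((hgood.and hB).and h3).and (ev_gt j)).exists
      have hlt : f j (q j k) < w := by
        calc f j (q j k) ≤ f j (q i j) := hf j _ _ hk1
          _ < f i (q i j) := hq i j hij
          _ = w := hw
      exact ih _ hlt j k hk4 hk2 hk3 rfl
  obtain ⟨i, hi⟩ := h3.exists
  obtain ⟨j, ⟨hj1, hj2⟩, hj3⟩ := ((hi.and h3).and (ev_gt i)).exists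
  exact key _ i j hj3 hj1 hj2 rfl

/-- greedy choice of distinct representatives along a well-founded order -/
theorem greedy {I X : Type u} (r : I → I → Prop) (hwf : WellFounded r)
    (htri : ∀ a b, a ≠ b → r a b ∨ r b a) (A : I → Set X)
    (h : ∀ i, Cardinal.mk {j // r j i} < Cardinal.mk (A i)) :
    ∃ f : I → X, Function.Injective f ∧ ∀ i, f i ∈ A i := by
  classical
  have hex : ∀ (i : I) (g : ∀ j, r j i → X), ∃ x ∈ A i, ∀ j (hj : r j i), g j hj ≠ x := by
    intro i g
    by_contra hcon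
    push Not at hcon
    have hsub : A i ⊆ Set.range (fun p : {j // r j i} => g p.1 p.2) := by
      intro x hx
      obtain ⟨j, hj, hjx⟩ := hcon x hx
      exact ⟨⟨j, hj⟩, hjx⟩
    have h1 := Cardinal.mk_le_mk_of_subset hsub
    have h2 : Cardinal.mk (Set.range (fun p : {j // r j i} => g p.1 p.2)) ≤
        Cardinal.mk {j // r j i} := Cardinal.mk_range_le
    exact absurd (h1.trans h2) (not_le.2 (h i))
  choose pick hpA hpn using hex
  let f : I → X := hwf.fix (fun i g => pick i g)
  have hfeq : ∀ i, f i = pick i (fun j _ => f j) := fun i => hwf.fix_eq _ i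
  have hne : ∀ i j, r j i → f j ≠ f i := by
    intro i j hji
    rw [hfeq i]
    exact hpn i (fun j _ => f j) j hji
  refine ⟨f, ?_, fun i => ?_⟩
  · intro a b hab
    by_contra hne'
    rcases htri a b hne' with h1 | h1
    · exact hne b a h1 hab
    · exact hne a b h1 hab.symm
  · rw [hfeq i]
    exact hpA i _

end H58Wqo
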