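import Pool.Agent.H58c.OrderLemmas

/-! Distinct representatives for countably many kinds of items. -/

namespace H58Wqo

universe u v w

open Cardinal Ordinal

/-- indices in each fibre, bounded by the cardinality of the fibre -/
theorem exists_index {I : Type u} (n : I → ℕ) :
    ∃ α : I → Ordinal.{u}, (∀ i, α i < (Cardinal.mk {j // n j = n i}).ord) ∧
      ∀ i j, n i = n j → α i = α j → i = j := by
  have h : ∀ m : ℕ, ∃ α : {j // n j = m} → Ordinal.{u},
      (∀ i, α i < (Cardinal.mk {j // n j = m}).ord) ∧ Function.Injective α := by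
    intro m
    obtain ⟨r, hr, hord⟩ := Cardinal.exists_ord_eq {j // n j = m}
    refine ⟨fun i => Ordinal.typein r i, fun i => ?_, Ordinal.typein_injective r⟩
    rw [hord]
    exact Ordinal.typein_lt_type r i
  choose α hα hinj using h
  refine ⟨fun i => α (n i) ⟨i, rfl⟩, fun i => hα _ _, ?_⟩
  intro i j hij hα'
  have gen : ∀ m (hm : n i = m), α (n i) ⟨i, rfl⟩ = α m ⟨i, hm⟩ := by
    intro m hm
    subst hm
    rfl
  have h1 : α (n j) ⟨i, hij⟩ = α (n j) ⟨j, rfl⟩ := by
    rw [← gen (n j) hij]
    exact hα'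
  have h2 := hinj (n j) h1
  exact congrArg Subtype.val h2

/-- the key ordering -/
noncomputable def key {I : Type u} (n : I → ℕ) (α : I → Ordinal.{u}) (i : I) :
    Ordinal.{u} ×ₗ (ℕ ×ₗ Ordinal.{u}) :=
  toLex (max (n i : Ordinal.{u}) (α i), toLex (n i, α i))

theorem spread {I X : Type u} (n : I → ℕ) (κ : ℕ → Cardinal.{u})
    (hκ : ∀ i, ℵ₀ ≤ κ (n i)) (hI : ∀ i, Cardinal.mk {j // n j = n i} ≤ κ (n i))
    (A : I → Set X) (hA : ∀ i, κ (n i) ≤ Cardinal.mk (A i)) :
    ∃ f : I → X, Function.Injective f ∧ ∀ i, f i ∈ A i := by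
  obtain ⟨α, hα, hinj⟩ := exists_index n
  have hα' : ∀ i, α i < (κ (n i)).ord := fun i =>
    (hα i).trans_le (Cardinal.ord_le_ord.2 (hI i))
  have hkinj : Function.Injective (key n α) := by
    intro i j hij
    have h1 := congrArg ofLex hij
    simp only [key, ofLex_toLex, Prod.mk.injEq] at h1
    have h2 := congrArg ofLex h1.2
    simp only [ofLex_toLex, Prod.mk.injEq] at h2
    exact hinj i j h2.1 h2.2
  refine greedy (fun i j => key n α i < key n α j) (InvImage.wf (key n α) wellFounded_lt) ?_ A ?_
  · intro a b hab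
    exact lt_or_gt_of_ne (fun h => hab (hkinj h))
  · intro i
    refine lt_of_lt_of_le ?_ (hA i)
    set β : Ordinal.{u} := max (n i : Ordinal.{u}) (α i) with hβ
    have hβlt : β < (κ (n i)).ord := by
      refine max_lt ?_ (hα' i)
      refine (Ordinal.natCast_lt_omega0 _).trans_le ?_
      rw [← Cardinal.ord_aleph0]
      exact Cardinal.ord_le_ord.2 (hκ i)
    have hsucc : Order.succ β < (κ (n i)).ord := (Cardinal.isSuccLimit_ord (hκ i)).succ_lt hβlt
    have hcard : (Order.succ β).card < κ (n i) := Cardinal.lt_ord.1 hsucc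
    have hprod : (Order.succ β).card * (Order.succ β).card < κ (n i) :=
      Cardinal.mul_lt_of_lt (hκ i) hcard hcard
    have hle : ∀ j, key n α j < key n α i → max (n j : Ordinal.{u}) (α j) < Order.succ β := by
      intro j hj
      rw [Order.lt_succ_iff]
      rcases (Prod.Lex.lt_iff.1 hj) with h | h
      · exact le_of_lt h
      · exact le_of_eq h.1
    let g : {j // key n α j < key n α i} → (Set.Iio (Order.succ β)) × (Set.Iio (Order.succ β)) :=
      fun j => (⟨(n j.1 : Ordinal.{u}), (le_max_left _ _).trans_lt (hle j.1 j.2)⟩,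
        ⟨α j.1, (le_max_right _ _).trans_lt (hle j.1 j.2)⟩)
    have hg : Function.Injective g := by
      intro a b hab
      have h1 := congrArg (fun p => p.1.1) hab
      have h2 := congrArg (fun p => p.2.1) hab
      simp only [g] at h1 h2
      apply Subtype.ext
      exact hinj _ _ (by exact_mod_cast h1) h2
    have h1 := Cardinal.lift_mk_le_lift_mk_of_injective hg
    rw [Cardinal.mk_prod, Cardinal.mk_Iio_ordinal] at h1
    have h2 : Cardinal.lift.{u + 1} (Cardinal.mk {j // key n α j < key n α i}) ≤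
        Cardinal.lift.{u + 1} ((Order.succ β).card * (Order.succ β).card) := by
      rw [Cardinal.lift_mul]
      simpa using h1
    exact (Cardinal.lift_le.1 h2).trans_lt hprod

end H58Wqo
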