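import Pool.Agent.H58c.Components

/-! Well-quasi-ordering of the minor-closed classes of finite graphs implies
well-quasi-ordering of all graphs with finite components. -/

namespace H58Wqo

universe u v w

open Filter

/-- the minor relation on finite graphs -/
def FinLe (a b : FinGraph) : Prop := IsMinor a.2 b.2

/-- components above which (in the minor order of components) there are only finitely many -/
def rareComp {V : Type u} (G : SimpleGraph V) (F : G.ConnectedComponent → FinGraph) :
    Set G.ConnectedComponent :=
  {c | numComp G (F c) < Cardinal.aleph0}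

theorem rare_finite (hwqo : SeqGood FinLe) {V : Type u} (G : SimpleGraph V)
    (F : G.ConnectedComponent → FinGraph) (hF1 : ∀ c, MinorIn (F c).2 G c.supp) :
    (rareComp G F).Finite := by
  by_contra hinf
  have hinf' : (rareComp G F).Infinite := hinf
  have hne : (Uf : Filter ℕ).NeBot := Uf.neBot
  set e := hinf'.natEmbedding with he
  obtain ⟨i, hi⟩ := (seqGood_eventually hwqo (fun n => F (e n).1)).exists
  set J : Set ℕ := {j | FinLe (F (e i).1) (F (e j).1)} with hJ
  have hJinf : J.Infinite := by
    intro hfin
    have h1 : Jᶜ ∈ (Filter.cofinite : Filter ℕ) := by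
      rw [Filter.mem_cofinite, compl_compl]
      exact hfin
    have h2 : Jᶜ ∈ (Uf : Filter ℕ) := Filter.hyperfilter_le_cofinite h1
    have h3 : J ∩ Jᶜ ∈ (Uf : Filter ℕ) := Filter.inter_mem hi h2
    rw [Set.inter_compl_self] at h3
    exact Filter.empty_notMem _ h3
  have hJi : Infinite J := hJinf.to_subtype
  have h4 : Infinite {c : G.ConnectedComponent // MinorIn (F (e i).1).2 G c.supp} := by
    refine Infinite.of_injective (fun j : J => ⟨(e j.1).1, MinorIn.trans j.2 (hF1 _)⟩) ?_
    intro a b hab
    have h5 := congrArg (fun x => x.1) hab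
    exact Subtype.ext (e.injective (Subtype.ext h5))
  have h5 : Cardinal.aleph0 ≤ numComp G (F (e i).1) := Cardinal.aleph0_le_mk _
  exact absurd (e i).2 (not_lt.2 h5)

/-- the main combination step -/
theorem minor_of_data {V V' : Type u} (G : SimpleGraph V) (G' : SimpleGraph V')
    (F : G.ConnectedComponent → FinGraph) (F' : G'.ConnectedComponent → FinGraph)
    (hF1 : ∀ c, MinorIn (F c).2 G c.supp) (hF2 : ∀ c, IsMinor (G.induce c.supp) (F c).2)
    (hrare' : (rareComp G' F').Finite)
    (hf : ∀ q, infComp G q ≤ infComp G' q)
    (hR : MinorIn (G.induce {v | G.connectedComponentMk v ∈ rareComp G F}) G'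
      {v | G'.connectedComponentMk v ∈ rareComp G' F'}) : IsMinor G G' := by
  classical
  obtain ⟨enc, henc⟩ := (countable_iff_exists_injective FinGraph).1 countable_finGraph
  have hdec : ∀ q, Function.invFun enc (enc q) = q := Function.leftInverse_invFun henc
  have hbig : ∀ i : {c : G.ConnectedComponent // c ∉ rareComp G F},
      Cardinal.aleph0 ≤ numComp G (F i.1) := fun i => not_lt.1 i.2
  obtain ⟨φ, hφinj, hφ⟩ := spread (I := {c : G.ConnectedComponent // c ∉ rareComp G F})
    (X := G'.ConnectedComponent) (fun i => enc (F i.1))
    (fun m => numComp G (Function.invFun enc m))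
    (fun i => by
      simp only [hdec]
      exact hbig i)
    (fun i => by
      simp only [hdec]
      refine Cardinal.mk_le_of_injective (f := fun j => (⟨j.1.1, by
        have h := henc j.2
        have h1 := hF1 j.1.1
        rw [h] at h1
        exact h1⟩ : {c : G.ConnectedComponent // MinorIn (F i.1).2 G c.supp})) ?_
      intro a b hab
      have h := congrArg (fun x => x.1) hab
      exact Subtype.ext (Subtype.ext h))
    (fun i => {c' | c' ∉ rareComp G' F' ∧ MinorIn (F i.1).2 G' c'.supp})
    (fun i => by
      simp only [hdec]
      by_contra hlt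
      rw [not_le] at hlt
      have h1 : numComp G (F i.1) ≤ numComp G' (F i.1) := by
        have h := hf (F i.1)
        unfold infComp at h
        rw [if_pos (hbig i)] at h
        by_cases h' : Cardinal.aleph0 ≤ numComp G' (F i.1)
        · rwa [if_pos h'] at h
        · rw [if_neg h'] at h
          exact absurd (Cardinal.aleph0_pos.trans_le ((hbig i).trans h)) (lt_irrefl _)
      have h2 : Cardinal.mk (rareComp G' F') < numComp G (F i.1) :=
        (Cardinal.lt_aleph0_iff_set_finite.2 hrare').trans_le (hbig i)
      have h3 : numComp G' (F i.1) ≤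
          Cardinal.mk {c' : G'.ConnectedComponent | c' ∉ rareComp G' F' ∧
            MinorIn (F i.1).2 G' c'.supp} + Cardinal.mk (rareComp G' F') := by
        have hsub : {c : G'.ConnectedComponent | MinorIn (F i.1).2 G' c.supp} ⊆
            {c' : G'.ConnectedComponent | c' ∉ rareComp G' F' ∧
              MinorIn (F i.1).2 G' c'.supp} ∪ rareComp G' F' := by
          intro c hc
          by_cases h : c ∈ rareComp G' F'
          · exact Or.inr h
          · exact Or.inl ⟨h, hc⟩
        exact (Cardinal.mk_le_mk_of_subset hsub).trans (Cardinal.mk_union_le _ _)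
      have h4 := Cardinal.add_lt_of_lt (hbig i) hlt h2
      exact absurd (h1.trans h3) (not_le.2 h4))
  let P : V → Option {c : G.ConnectedComponent // c ∉ rareComp G F} := fun v =>
    if h : G.connectedComponentMk v ∈ rareComp G F then none
    else some ⟨G.connectedComponentMk v, h⟩
  let S : Option {c : G.ConnectedComponent // c ∉ rareComp G F} → Set V' := fun i =>
    match i with
    | none => {v | G'.connectedComponentMk v ∈ rareComp G' F'}
    | some c => (φ c).supp
  refine glue P ?_ S ?_ ?_
  · intro a b hab
    have : G.connectedComponentMk a = G.connectedComponentMk b :=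
      SimpleGraph.ConnectedComponent.sound hab.reachable
    simp only [P, this]
  · intro i j hij
    rw [Set.disjoint_left]
    intro x hx hx'
    match i, j with
    | none, none => exact hij rfl
    | none, some c =>
      have h1 : G'.connectedComponentMk x ∈ rareComp G' F' := hx
      have h2 : G'.connectedComponentMk x = φ c := hx'
      rw [h2] at h1
      exact (hφ c).1 h1
    | some c, none =>
      have h1 : G'.connectedComponentMk x ∈ rareComp G' F' := hx'
      have h2 : G'.connectedComponentMk x = φ c := hx
      rw [h2] at h1
      exact (hφ c).1 h1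
    | some c, some c' =>
      have h1 : G'.connectedComponentMk x = φ c := hx
      have h2 : G'.connectedComponentMk x = φ c' := hx'
      exact hij (congrArg some (hφinj (h1.symm.trans h2)))
  · intro i
    match i with
    | none =>
      have hset : {v | P v = none} = {v | G.connectedComponentMk v ∈ rareComp G F} := by
        ext v
        simp only [P, Set.mem_setOf_eq]
        by_cases h : G.connectedComponentMk v ∈ rareComp G F
        · simp [h]
        · simp [h]
      rw [hset]
      exact minorFT_of_minorIn hR
    | some c =>
      have hset : {v | P v = some c} = c.1.supp := by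
        ext v
        simp only [P, Set.mem_setOf_eq, SimpleGraph.ConnectedComponent.mem_supp_iff]
        by_cases h : G.connectedComponentMk v ∈ rareComp G F
        · simp only [dif_pos h, reduceCtorEq, false_iff]
          intro h'
          rw [h'] at h
          exact c.2 h
        · simp only [dif_neg h, Option.some.injEq]
          exact ⟨fun h' => congrArg Subtype.val h', fun h' => Subtype.ext h'⟩
      rw [hset]
      exact minorFT_of_minorIn (MinorIn.trans (hF2 c.1) (hφ c).2)

theorem finLe_refl (a : FinGraph) : FinLe a a := IsMinor.refl _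

theorem finLe_trans (a b c : FinGraph) (h1 : FinLe a b) (h2 : FinLe b c) : FinLe a c :=
  IsMinor.trans h1 h2

theorem allWqo_of_classesWqo (h : ClassesWqo) : AllWqo.{u} := by
  classical
  have hcl : ∀ C : ℕ → Set FinGraph, (∀ n, DownClosed FinLe (C n)) →
      ∃ i j, i < j ∧ C i ⊆ C j := fun C hC => h C (fun n a ha b hb => hC n a ha b hb)
  have hwqo : SeqGood FinLe := seqGood_of_downsets finLe_refl finLe_trans hcl
  have hne : (Uf : Filter ℕ).NeBot := Uf.neBot
  intro V G hG
  have hex : ∀ n, ∀ c : (G n).ConnectedComponent, ∃ F : FinGraph,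
      MinorIn F.2 (G n) c.supp ∧ IsMinor ((G n).induce c.supp) F.2 :=
    fun n c => exists_rep (G n) (hG n c)
  choose F hF1 hF2 using hex
  have hrare : ∀ n, (rareComp (G n) (F n)).Finite := fun n => rare_finite hwqo _ _ (hF1 n)
  have hTfin : ∀ n, {v | (G n).connectedComponentMk v ∈ rareComp (G n) (F n)}.Finite := by
    intro n
    have h1 := (hrare n).biUnion (t := fun c => c.supp) (fun c _ => hG n c)
    refine h1.subset ?_
    intro v hv
    exact Set.mem_biUnion hv rfl
  have hexR : ∀ n, ∃ R : FinGraph,
      MinorIn R.2 (G n) {v | (G n).connectedComponentMk v ∈ rareComp (G n) (F n)} ∧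
      IsMinor ((G n).induce {v | (G n).connectedComponentMk v ∈ rareComp (G n) (F n)}) R.2 :=
    fun n => exists_rep (G n) (hTfin n)
  choose R hR1 hR2 using hexR
  have hfun : SeqGood (fun f g : {f : FinGraph → Cardinal.{u} //
      ∀ a b, FinLe a b → f b ≤ f a} => ∀ q, f.1 q ≤ g.1 q) := by
    intro x
    exact antitone_good finLe_refl finLe_trans hcl (fun n => (x n).1) (fun n => (x n).2)
  have h1 := seqGood_eventually hfun
    (fun n => ⟨infComp (G n), fun a b hab => infComp_anti (G n) hab⟩)
  have h2 := seqGood_eventually hwqo R
  obtain ⟨i, hi1, hi2⟩ := (h1.and h2).exists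
  obtain ⟨j, ⟨hj1, hj2⟩, hij⟩ := ((hi1.and hi2).and (ev_gt i)).exists
  refine ⟨i, j, hij, ?_⟩
  refine minor_of_data (G i) (G j) (F i) (F j) (hF1 i) (hF2 i) (hrare j) hj1 ?_
  exact MinorIn.trans (IsMinor.trans (hR2 i) hj2) (hR1 j)

end H58Wqo
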